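import Pool.Agent.W_MP_ffc92f_co.Lower
import Pool.Agent.W_MP_ffc92f_co.Upper

/-!
# The order of growth of the number of rich words

For every finite alphabet with at least two letters the logarithm of the number of rich words
of length `n` has the order of growth `n ^ (2 / 3)`.
-/

namespace Pool.Agent.Results.MP_ffc92f_co.RichWordsGrowth

open Pool.Agent.W_MP_ffc92f_co

universe u

theorem result (α : Type u) [Finite α] [Nontrivial α] :
    (fun n : ℕ => Real.log (richCount α n)) =Θ[Filter.atTop]
      (fun n : ℕ => (n : ℝ) ^ (2 / 3 : ℝ)) := by
  classical
  have : Fintype α := Fintype.ofFinite α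
  constructor
  · refine Asymptotics.IsBigO.of_bound (cU (Fintype.card α)) ?_
    filter_upwards [Filter.eventually_ge_atTop 1] with n hn
    have h1 := upper_bound (α := α) n hn
    have h2 : 0 ≤ Real.log (richCount α n) := by
      apply Real.log_nonneg
      exact_mod_cast richCount_pos (α := α) n
    rw [Real.norm_of_nonneg h2, Real.norm_of_nonneg (by positivity)]
    exact h1
  · refine Asymptotics.IsBigO.of_bound 400 ?_
    filter_upwards [Filter.eventually_ge_atTop 256] with n hn
    have h1 := lower_bound α n hn
    have h2 : 0 ≤ Real.log (richCount α n) := by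
      apply Real.log_nonneg
      exact_mod_cast richCount_pos (α := α) n
    rw [Real.norm_of_nonneg h2, Real.norm_of_nonneg (by positivity)]
    linarith

end Pool.Agent.Results.MP_ffc92f_co.RichWordsGrowth
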